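import Mathlib

/-!
helper73, project EV (MP_ea8a26): the saddle point step.
For a real polynomial P with nonnegative coefficients p_j and r > 0,
  integral over [-pi, pi] of Re (P (r e^(ix)) e^(-ikx)) (1 - cos x) dx
    = pi (2 p_k r^k - p_(k+1) r^(k+1) - p_(k-1) r^(k-1)),
and if this is >= 0 for one r > 0 then p_(k-1) p_(k+1) <= p_k^2.
-/

open Real MeasureTheory intervalIntegral Polynomial

namespace Pool.Agent.Helper73.EV

/-- the real part of P (r e^(ix)) e^(-ikx) -/
noncomputable def phiRe (P : ℝ[X]) (k : ℕ) (r x : ℝ) : ℝ :=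
  ((P.map (algebraMap ℝ ℂ)).eval ((r : ℂ) * Complex.exp (x * Complex.I)) *
    Complex.exp (-(k * x * Complex.I))).re

lemma integral_cos_int (m : ℤ) :
    ∫ x in (-π)..π, Real.cos (m * x) = if m = 0 then 2 * π else 0 := by
  split_ifs with h
  · subst h; simp; ring
  · have hm : (m : ℝ) ≠ 0 := by exact_mod_cast h
    rw [intervalIntegral.integral_comp_mul_left (fun x => Real.cos x) hm, integral_cos]
    have h1 : Real.sin ((m : ℝ) * π) = 0 := Real.sin_int_mul_pi m
    have h2 : Real.sin ((m : ℝ) * (-π)) = 0 := by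
      rw [mul_neg, Real.sin_neg, h1, neg_zero]
    rw [h1, h2]; simp

lemma integral_cos_one_sub (m : ℤ) :
    ∫ x in (-π)..π, Real.cos (m * x) * (1 - Real.cos x) =
      (if m = 0 then 2 * π else 0) - (if m + 1 = 0 then π else 0)
        - (if m - 1 = 0 then π else 0) := by
  have h : ∀ x : ℝ, Real.cos (m * x) * (1 - Real.cos x) =
      Real.cos (m * x) - (1 / 2) * Real.cos (((m + 1 : ℤ) : ℝ) * x)
        - (1 / 2) * Real.cos (((m - 1 : ℤ) : ℝ) * x) := by
    intro x
    push_cast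
    rw [add_mul, sub_mul, one_mul, Real.cos_add, Real.cos_sub]; ring
  simp_rw [h]
  rw [intervalIntegral.integral_sub, intervalIntegral.integral_sub,
    intervalIntegral.integral_const_mul, intervalIntegral.integral_const_mul,
    integral_cos_int, integral_cos_int, integral_cos_int]
  · split_ifs <;> ring
  all_goals apply Continuous.intervalIntegrable; fun_prop

lemma phiRe_eq (P : ℝ[X]) (k : ℕ) (r x : ℝ) :
    phiRe P k r x =
      ∑ j ∈ P.support, P.coeff j * r ^ j * Real.cos (((j : ℤ) - (k : ℤ) : ℤ) * x) := by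
  unfold phiRe
  rw [Polynomial.eval_map, Polynomial.eval₂_eq_sum, Polynomial.sum_def, Finset.sum_mul,
    Complex.re_sum]
  refine Finset.sum_congr rfl fun j _ => ?_
  have h1 : (algebraMap ℝ ℂ) (P.coeff j) * ((r : ℂ) * Complex.exp (x * Complex.I)) ^ j *
      Complex.exp (-(k * x * Complex.I)) =
      ((P.coeff j * r ^ j : ℝ) : ℂ) *
        Complex.exp (((((j : ℤ) - (k : ℤ) : ℤ) : ℝ) * x : ℝ) * Complex.I) := by
    have h2 : Complex.exp (j * (x * Complex.I)) * Complex.exp (-(k * x * Complex.I)) =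
        Complex.exp (((((j : ℤ) - (k : ℤ) : ℤ) : ℝ) * x : ℝ) * Complex.I) := by
      rw [← Complex.exp_add]
      congr 1
      push_cast
      ring
    rw [← h2, mul_pow, ← Complex.exp_nat_mul]
    rw [show (algebraMap ℝ ℂ) (P.coeff j) = ((P.coeff j : ℝ) : ℂ) from rfl]
    push_cast
    ring
  rw [h1, Complex.re_ofReal_mul, Complex.exp_ofReal_mul_I_re]

/-- (S1) -/
theorem saddle_int (P : ℝ[X]) (k : ℕ) (hk : 1 ≤ k) (r : ℝ) :
    ∫ x in (-π)..π, phiRe P k r x * (1 - Real.cos x) =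
      π * (2 * (P.coeff k * r ^ k) - P.coeff (k + 1) * r ^ (k + 1)
        - P.coeff (k - 1) * r ^ (k - 1)) := by
  simp_rw [phiRe_eq, Finset.sum_mul]
  rw [intervalIntegral.integral_finsetSum]
  · have hterm : ∀ j ∈ P.support,
        ∫ x in (-π)..π, P.coeff j * r ^ j * Real.cos (((j : ℤ) - (k : ℤ) : ℤ) * x) *
          (1 - Real.cos x) =
        (if j = k then 2 * π * (P.coeff j * r ^ j) else 0)
          - (if j = k - 1 then π * (P.coeff j * r ^ j) else 0)
          - (if j = k + 1 then π * (P.coeff j * r ^ j) else 0) := by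
      intro j _
      have : ∀ x : ℝ, P.coeff j * r ^ j * Real.cos (((j : ℤ) - (k : ℤ) : ℤ) * x) *
          (1 - Real.cos x) = (P.coeff j * r ^ j) *
          (Real.cos (((j : ℤ) - (k : ℤ) : ℤ) * x) * (1 - Real.cos x)) := by
        intro x; ring
      simp_rw [this]
      rw [intervalIntegral.integral_const_mul, integral_cos_one_sub]
      have e1 : ((j : ℤ) - (k : ℤ) = 0) ↔ j = k := by omega
      have e2 : ((j : ℤ) - (k : ℤ) + 1 = 0) ↔ j = k - 1 := by omega
      have e3 : ((j : ℤ) - (k : ℤ) - 1 = 0) ↔ j = k + 1 := by omega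
      simp only [e1, e2, e3]
      split_ifs <;> ring
    rw [Finset.sum_congr rfl hterm, Finset.sum_sub_distrib, Finset.sum_sub_distrib,
      Finset.sum_ite_eq', Finset.sum_ite_eq', Finset.sum_ite_eq']
    have hs : ∀ j : ℕ, ∀ c : ℝ, (if j ∈ P.support then c * (P.coeff j * r ^ j) else 0) =
        c * (P.coeff j * r ^ j) := by
      intro j c
      split_ifs with h
      · rfl
      · rw [Polynomial.notMem_support_iff.mp h]; ring
    rw [hs, hs, hs]
    ring
  · intro j _
    apply Continuous.intervalIntegrable; fun_prop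

/-- (S2) -/
theorem lc_of_int (P : ℝ[X]) (hP : ∀ j, 0 ≤ P.coeff j) (k : ℕ) (hk : 1 ≤ k) (r : ℝ)
    (hr : 0 < r) (h : 0 ≤ ∫ x in (-π)..π, phiRe P k r x * (1 - Real.cos x)) :
    P.coeff (k - 1) * P.coeff (k + 1) ≤ P.coeff k ^ 2 := by
  rw [saddle_int P k hk r] at h
  have h1 : 0 ≤ 2 * (P.coeff k * r ^ k) - P.coeff (k + 1) * r ^ (k + 1)
      - P.coeff (k - 1) * r ^ (k - 1) := by
    by_contra hc
    push Not at hc
    have := mul_neg_of_pos_of_neg Real.pi_pos hc
    linarith
  obtain ⟨n, rfl⟩ : ∃ n, k = n + 1 := ⟨k - 1, by omega⟩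
  simp only [Nat.add_sub_cancel] at *
  have hrn : 0 < r ^ n := pow_pos hr n
  set a := P.coeff n
  set b := P.coeff (n + 1)
  set c := P.coeff (n + 1 + 1)
  have ha : 0 ≤ a := hP _
  have hb : 0 ≤ b := hP _
  have hc : 0 ≤ c := hP _
  have h2 : 0 ≤ r ^ n * (2 * b * r - c * r ^ 2 - a) := by
    have : r ^ n * (2 * b * r - c * r ^ 2 - a) =
      2 * (b * r ^ (n + 1)) - c * r ^ (n + 1 + 1) - a * r ^ n := by ring
    rw [this]; exact h1
  have h3 : 0 ≤ 2 * b * r - c * r ^ 2 - a := by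
    by_contra hcon
    push Not at hcon
    have := mul_neg_of_pos_of_neg hrn hcon
    linarith
  -- a + c r^2 <= 2 b r, so 4 a c r^2 <= (a + c r^2)^2 <= 4 b^2 r^2
  have h4 : a + c * r ^ 2 ≤ 2 * b * r := by linarith
  have h5 : 0 ≤ a + c * r ^ 2 := by positivity
  have h6 : (a + c * r ^ 2) ^ 2 ≤ (2 * b * r) ^ 2 := pow_le_pow_left₀ h5 h4 2
  have h7 : 4 * (a * c) * r ^ 2 ≤ 4 * b ^ 2 * r ^ 2 := by
    nlinarith [sq_nonneg (a - c * r ^ 2)]
  have hr2 : 0 < r ^ 2 := by positivity
  have h8 : 4 * (a * c) ≤ 4 * b ^ 2 := le_of_mul_le_mul_right h7 hr2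
  linarith

lemma phiRe_continuous (P : ℝ[X]) (k : ℕ) (r : ℝ) : Continuous (phiRe P k r) := by
  have : phiRe P k r = fun x => ∑ j ∈ P.support,
      P.coeff j * r ^ j * Real.cos (((j : ℤ) - (k : ℤ) : ℤ) * x) := by
    funext x; exact phiRe_eq P k r x
  rw [this]; fun_prop

/-- (S3) The saddle point criterion. `M` is the value `P(r)` (any positive normalisation). -/
theorem lc_of_saddle (P : ℝ[X]) (hP : ∀ j, 0 ≤ P.coeff j) (k : ℕ) (hk : 1 ≤ k) (r : ℝ)
    (hr : 0 < r) (M a δ η : ℝ) (hM : 0 ≤ M) (ha : 0 < a) (ha1 : a ≤ 1)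
    (hη : 0 ≤ η)
    (hin : ∀ x : ℝ, |x| ≤ a → M * (1 / 2) * Real.exp (-1) ≤ phiRe P k r x)
    (hmid : ∀ x : ℝ, |x| ≤ δ → 0 ≤ phiRe P k r x)
    (hout : ∀ x : ℝ, δ ≤ |x| → |x| ≤ π → -(M * η) ≤ phiRe P k r x)
    (htail : 4 * π * η ≤ a ^ 3 / 20) :
    P.coeff (k - 1) * P.coeff (k + 1) ≤ P.coeff k ^ 2 := by
  apply lc_of_int P hP k hk r hr
  have hpi : (3 : ℝ) < π := Real.pi_gt_three
  have hcont := phiRe_continuous P k r
  have hint : ∀ u v : ℝ, IntervalIntegrable (fun x => phiRe P k r x * (1 - Real.cos x))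
      volume u v := by
    intro u v; apply Continuous.intervalIntegrable; fun_prop
  have haπ : a ≤ π := by linarith
  -- pointwise lower bound away from the centre
  have hlow : ∀ x : ℝ, |x| ≤ π → -(2 * (M * η)) ≤ phiRe P k r x * (1 - Real.cos x) := by
    intro x hx
    have hc0 : 0 ≤ 1 - Real.cos x := by linarith [Real.cos_le_one x]
    have hc2 : 1 - Real.cos x ≤ 2 := by linarith [Real.neg_one_le_cos x]
    have hMη : 0 ≤ M * η := mul_nonneg hM hη
    rcases le_total |x| δ with h | h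
    · have := mul_nonneg (hmid x h) hc0
      linarith
    · have h1 := hout x h hx
      have h2 : -(M * η) * (1 - Real.cos x) ≤ phiRe P k r x * (1 - Real.cos x) :=
        mul_le_mul_of_nonneg_right h1 hc0
      nlinarith
  have hcos : ∀ x : ℝ, |x| ≤ 1 → 43 / 96 * x ^ 2 ≤ 1 - Real.cos x := by
    intro x hx
    have h1 := Real.cos_bound hx
    have h2 := (abs_le.mp h1).2
    have h3 : |x| ^ 4 = x ^ 4 := by
      rw [show (4 : ℕ) = 2 * 2 from rfl, pow_mul, sq_abs, ← pow_mul]
    rw [h3] at h2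
    have h4 : x ^ 2 ≤ 1 := by
      have := sq_le_sq' (by linarith [abs_nonneg x] : -1 ≤ |x|) hx
      rwa [sq_abs, one_pow] at this
    nlinarith [sq_nonneg x, mul_nonneg (sq_nonneg x) (sub_nonneg.mpr h4)]
  have hexp : (0.36 : ℝ) ≤ Real.exp (-1) := by
    rw [Real.exp_neg]
    have := Real.exp_one_lt_d9
    rw [le_inv_comm₀ (by norm_num) (Real.exp_pos 1)]
    norm_num at this ⊢
    linarith
  -- split
  have hsplit : ∫ x in (-π)..π, phiRe P k r x * (1 - Real.cos x) =
      (∫ x in (-π)..(-a), phiRe P k r x * (1 - Real.cos x)) +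
      (∫ x in (-a)..a, phiRe P k r x * (1 - Real.cos x)) +
      ∫ x in a..π, phiRe P k r x * (1 - Real.cos x) := by
    rw [intervalIntegral.integral_add_adjacent_intervals (hint _ _) (hint _ _),
      intervalIntegral.integral_add_adjacent_intervals (hint _ _) (hint _ _)]
  have hA : -(2 * (M * η)) * (π - a) ≤ ∫ x in (-π)..(-a), phiRe P k r x * (1 - Real.cos x) := by
    have h1 : ∫ _x in (-π)..(-a), -(2 * (M * η)) = -(2 * (M * η)) * (π - a) := by
      rw [intervalIntegral.integral_const, smul_eq_mul]; ring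
    rw [← h1]
    apply intervalIntegral.integral_mono_on (by linarith)
    · apply Continuous.intervalIntegrable; fun_prop
    · exact hint _ _
    · intro x hx
      apply hlow
      rw [abs_le]; constructor <;> linarith [hx.1, hx.2]
  have hC : -(2 * (M * η)) * (π - a) ≤ ∫ x in a..π, phiRe P k r x * (1 - Real.cos x) := by
    have h1 : ∫ _x in a..π, -(2 * (M * η)) = -(2 * (M * η)) * (π - a) := by
      rw [intervalIntegral.integral_const, smul_eq_mul]; ring
    rw [← h1]
    apply intervalIntegral.integral_mono_on haπ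
    · apply Continuous.intervalIntegrable; fun_prop
    · exact hint _ _
    · intro x hx
      apply hlow
      rw [abs_le]; constructor <;> linarith [hx.1, hx.2]
  have hB : M * (1 / 2) * Real.exp (-1) * (43 / 96) * (2 * a ^ 3 / 3) ≤
      ∫ x in (-a)..a, phiRe P k r x * (1 - Real.cos x) := by
    have h1 : ∫ x in (-a)..a, M * (1 / 2) * Real.exp (-1) * (43 / 96) * x ^ 2 =
        M * (1 / 2) * Real.exp (-1) * (43 / 96) * (2 * a ^ 3 / 3) := by
      rw [intervalIntegral.integral_const_mul, integral_pow]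
      congr 1
      push_cast
      ring
    rw [← h1]
    apply intervalIntegral.integral_mono_on (by linarith)
    · apply Continuous.intervalIntegrable; fun_prop
    · exact hint _ _
    · intro x hx
      have hxa : |x| ≤ a := abs_le.mpr ⟨hx.1, hx.2⟩
      have h2 := hin x hxa
      have h3 := hcos x (hxa.trans ha1)
      have h4 : 0 ≤ M * (1 / 2) * Real.exp (-1) := by positivity
      have h5 : 0 ≤ 43 / 96 * x ^ 2 := by positivity
      calc M * (1 / 2) * Real.exp (-1) * (43 / 96) * x ^ 2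
          = (M * (1 / 2) * Real.exp (-1)) * (43 / 96 * x ^ 2) := by ring
        _ ≤ phiRe P k r x * (1 - Real.cos x) := mul_le_mul h2 h3 h5 (h4.trans h2)
  rw [hsplit]
  have ha3 : 0 < a ^ 3 := by positivity
  have hB' : M * (a ^ 3 / 20) ≤ M * (1 / 2) * Real.exp (-1) * (43 / 96) * (2 * a ^ 3 / 3) := by
    have : a ^ 3 / 20 ≤ (1 / 2) * Real.exp (-1) * (43 / 96) * (2 * a ^ 3 / 3) := by
      nlinarith
    calc M * (a ^ 3 / 20) ≤ M * ((1 / 2) * Real.exp (-1) * (43 / 96) * (2 * a ^ 3 / 3)) :=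
          mul_le_mul_of_nonneg_left this hM
      _ = _ := by ring
  have hT : M * (4 * π * η) ≤ M * (a ^ 3 / 20) := mul_le_mul_of_nonneg_left htail hM
  have hMη : 0 ≤ M * η := mul_nonneg hM hη
  nlinarith [mul_nonneg hMη ha.le]

end Pool.Agent.Helper73.EV
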